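import Mathlib
import Pool.Agent.Helper827.B11
import Pool.Agent.Helper827.B13
import Pool.Agent.Helper827.B14

/-!
# Fragmented dual balls, separable duals, subspaces and quotients
-/

set_option autoImplicit false
set_option linter.unusedSectionVars false

namespace Pool.Agent.Y436.TS

open Pool.Agent.Helper827.B Set Metric Topology TopologicalSpace

section sep

variable {X : Type} [NormedAddCommGroup X] [NormedSpace ℝ X]

lemma toF_inj : Function.Injective (toF : DB X → X →L[ℝ] ℝ) := by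
  intro h h' hh
  apply Subtype.ext
  exact WeakDual.toStrongDual.injective hh

/-- the dual ball of a separable space is second countable -/
lemma sc_DB [SeparableSpace X] : SecondCountableTopology (DB X) := by
  obtain ⟨u, hu⟩ := exists_dense_seq X
  let Φ : DB X → (ℕ → ℝ) := fun h n => toF h (u n)
  have hΦ : Continuous Φ := continuous_pi fun n => DB_cont (u n)
  have hinj : Function.Injective Φ := by
    intro h h' hh
    apply toF_inj
    apply DFunLike.coe_injective
    refine Continuous.ext_on hu (toF h).continuous (toF h').continuous ?_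
    rintro _ ⟨n, rfl⟩
    exact congrFun hh n
  exact (hΦ.isClosedEmbedding hinj).isEmbedding.secondCountableTopology

theorem cover [SeparableSpace X] (hF : Frg X) {ε : ℝ} (hε : 0 < ε) :
    ∃ t : Set (DB X), t.Countable ∧ ∀ h : DB X, ∃ k ∈ t, ‖toF h - toF k‖ ≤ ε := by
  have hsc := sc_DB (X := X)
  let G : Set (Set (DB X)) := {O ∈ countableBasis (DB X) |
    ∃ t : Set (DB X), t.Countable ∧ ∀ h ∈ O, ∃ k ∈ t, ‖toF h - toF k‖ ≤ ε}
  have hG : G.Countable := (countable_countableBasis _).mono (sep_subset _ _)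
  have hU : ∃ t : Set (DB X), t.Countable ∧ ∀ h ∈ ⋃₀ G, ∃ k ∈ t, ‖toF h - toF k‖ ≤ ε := by
    have h1 : ∀ O ∈ G, ∃ t : Set (DB X), t.Countable ∧ ∀ h ∈ O, ∃ k ∈ t, ‖toF h - toF k‖ ≤ ε :=
      fun O hO => hO.2
    choose! t ht1 ht2 using h1
    refine ⟨⋃ O ∈ G, t O, hG.biUnion ht1, ?_⟩
    rintro h ⟨O, hO, hh⟩
    obtain ⟨k, hk, hk2⟩ := ht2 O hO h hh
    exact ⟨k, mem_biUnion hO hk, hk2⟩
  have hopen : IsOpen (⋃₀ G) := isOpen_sUnion fun O hO => isOpen_of_mem_countableBasis hO.1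
  by_cases hne : (⋃₀ G)ᶜ.Nonempty
  · exfalso
    obtain ⟨O, hO, ⟨m, hm, hmO⟩, hd⟩ := hF ε hε _ hopen.isClosed_compl hne
    obtain ⟨B', hB', hmB, hBO⟩ :=
      (isBasis_countableBasis (DB X)).exists_subset_of_mem_open hmO hO
    have hBG : B' ∈ G := by
      refine ⟨hB', ?_⟩
      obtain ⟨t, ht1, ht2⟩ := hU
      refine ⟨insert m t, ht1.insert m, fun h hh => ?_⟩
      by_cases h2 : h ∈ ⋃₀ G
      · obtain ⟨k, hk, hk2⟩ := ht2 h h2
        exact ⟨k, mem_insert_of_mem _ hk, hk2⟩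
      · exact ⟨m, mem_insert _ _, hd h ⟨h2, hBO hh⟩ m ⟨hm, hmO⟩⟩
    exact hm ⟨B', hBG, hmB⟩
  · rw [not_nonempty_iff_eq_empty, compl_empty_iff] at hne
    rw [hne] at hU
    obtain ⟨t, h1, h2⟩ := hU
    exact ⟨t, h1, fun h => h2 h (mem_univ _)⟩

/-- the dual of a separable space with a fragmented dual ball is separable -/
theorem sep_dual [SeparableSpace X] (hF : Frg X) : SeparableSpace (X →L[ℝ] ℝ) := by
  have h1 : ∀ n : ℕ, ∃ t : Set (DB X), t.Countable ∧
      ∀ h : DB X, ∃ k ∈ t, ‖toF h - toF k‖ ≤ 1 / ((n : ℝ) + 1) :=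
    fun n => cover hF (by positivity)
  choose t ht1 ht2 using h1
  refine ⟨⟨⋃ n : ℕ, ⋃ N : ℕ, (fun k => (N : ℝ) • toF k) '' t n,
    countable_iUnion fun n => countable_iUnion fun N => (ht1 n).image _, ?_⟩⟩
  intro f
  rw [Metric.mem_closure_iff]
  intro δ hδ
  obtain ⟨N, hN⟩ := exists_nat_gt ‖f‖
  have hN0 : (0 : ℝ) < N := (norm_nonneg f).trans_lt hN
  obtain ⟨n, hn⟩ := exists_nat_one_div_lt (show 0 < δ / N by positivity)
  have hg : ‖(N : ℝ)⁻¹ • f‖ ≤ 1 := by
    rw [norm_smul, norm_inv, Real.norm_of_nonneg hN0.le, inv_mul_le_iff₀ hN0, mul_one]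
    exact hN.le
  obtain ⟨k, hk, hk2⟩ := ht2 n (ofF ((N : ℝ)⁻¹ • f) hg)
  refine ⟨(N : ℝ) • toF k, mem_iUnion.2 ⟨n, mem_iUnion.2 ⟨N, k, hk, rfl⟩⟩, ?_⟩
  have h3 : toF (ofF ((N : ℝ)⁻¹ • f) hg) = (N : ℝ)⁻¹ • f := rfl
  rw [h3] at hk2
  have h4 : f - (N : ℝ) • toF k = (N : ℝ) • ((N : ℝ)⁻¹ • f - toF k) := by
    rw [smul_sub, smul_smul, mul_inv_cancel₀ hN0.ne', one_smul]
  rw [dist_eq_norm, h4, norm_smul, Real.norm_of_nonneg hN0.le]
  calc (N : ℝ) * ‖(N : ℝ)⁻¹ • f - toF k‖ ≤ N * (1 / ((n : ℝ) + 1)) :=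
        mul_le_mul_of_nonneg_left hk2 hN0.le
    _ < N * (δ / N) := mul_lt_mul_of_pos_left hn hN0
    _ = δ := mul_div_cancel₀ _ hN0.ne'

end sep

section bumps

/-- `X` admits an everywhere Frechet differentiable bump function. -/
def FBump (X : Type) [NormedAddCommGroup X] [NormedSpace ℝ X] : Prop :=
  ∃ b : X → ℝ, Differentiable ℝ b ∧ (∃ x, b x ≠ 0) ∧ Bornology.IsBounded (Function.support b)

variable {X : Type} [NormedAddCommGroup X] [NormedSpace ℝ X]

/-- bump functions restrict to subspaces -/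
lemma FBump.sub (h : FBump X) (Y : Submodule ℝ X) : FBump Y := by
  obtain ⟨b, hb, ⟨x0, hx0⟩, hbb⟩ := h
  obtain ⟨R, hR⟩ := hbb.subset_closedBall 0
  refine ⟨fun y => b (x0 + (y : X)), ?_, ⟨0, ?_⟩, ?_⟩
  · exact hb.comp (Y.subtypeL.differentiable.const_add x0)
  · simpa using hx0
  · refine (isBounded_closedBall (x := (0 : Y)) (r := R + ‖x0‖)).subset ?_
    intro y hy
    have h1 := hR (show x0 + (y : X) ∈ Function.support b from hy)
    rw [mem_closedBall_zero_iff] at h1 ⊢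
    have h2 : ‖(y : X)‖ ≤ ‖x0 + (y : X)‖ + ‖x0‖ := by
      have h3 : (y : X) = (x0 + (y : X)) - x0 := by abel
      calc ‖(y : X)‖ = ‖(x0 + (y : X)) - x0‖ := by rw [← h3]
        _ ≤ _ := norm_sub_le _ _
    calc ‖y‖ = ‖(y : X)‖ := rfl
      _ ≤ _ := h2.trans (by linarith)

lemma FBump.frg [CompleteSpace X] (h : FBump X) : Frg X := by
  obtain ⟨b, hb, hx0, hbb⟩ := h
  exact bump_frag hb hx0 hbb

/-- every separable subspace has separable dual -/
def Asp (X : Type) [NormedAddCommGroup X] [NormedSpace ℝ X] : Prop :=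
  ∀ F : Submodule ℝ X, IsSeparable (F : Set X) → SeparableSpace (F →L[ℝ] ℝ)

theorem FBump.asp [CompleteSpace X] (h : FBump X) : Asp X := by
  intro F hF
  have hGc : IsClosed (F.topologicalClosure : Set X) := F.isClosed_topologicalClosure
  have hG1 : CompleteSpace F.topologicalClosure := hGc.completeSpace_coe
  have hG2 : SeparableSpace F.topologicalClosure := by
    have h2 : IsSeparable (F.topologicalClosure : Set X) := by
      rw [Submodule.topologicalClosure_coe]
      exact hF.closure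
    exact h2.separableSpace
  have h1 : Frg F.topologicalClosure := (h.sub F.topologicalClosure).frg
  have h2 := sep_dual h1
  let j : F →L[ℝ] F.topologicalClosure :=
    F.subtypeL.codRestrict F.topologicalClosure (fun x => F.le_topologicalClosure x.2)
  have hΦ : Continuous (fun g : F.topologicalClosure →L[ℝ] ℝ => g.comp j) :=
    continuous_id.clm_comp continuous_const
  have hs : Function.Surjective (fun g : F.topologicalClosure →L[ℝ] ℝ => g.comp j) := by
    intro f
    obtain ⟨g, hg, -⟩ := exists_extension_norm_eq (𝕜 := ℝ) F f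
    exact ⟨g.comp F.topologicalClosure.subtypeL, ContinuousLinearMap.ext fun x => hg x⟩
  exact hs.denseRange.separableSpace hΦ

/-- quotients -/
theorem FBump.quot [CompleteSpace X] (h : FBump X) (Y : Submodule ℝ X)
    [hYc : IsClosed (Y : Set X)] : Frg (X ⧸ Y) := by
  obtain ⟨b, hb, hx0, hbb⟩ := h
  refine quot_frag (X := X) (Y := X ⧸ Y) hb hx0 hbb (f := Y.mkQ) (L := 1) zero_le_one ?_
    (c := 1) one_pos ?_
  · intro x y
    rw [one_mul, ← map_sub]
    exact Submodule.Quotient.norm_mk_le Y (x - y)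
  · intro x r hr z hz
    rw [one_mul, mem_ball, dist_eq_norm] at hz
    obtain ⟨m, hm1, hm2⟩ := Submodule.Quotient.norm_mk_lt (z - Y.mkQ x)
      (show 0 < r - ‖z - Y.mkQ x‖ by linarith)
    refine ⟨x + m, ?_, ?_⟩
    · rw [mem_ball, dist_eq_norm, add_sub_cancel_left]
      linarith
    · rw [map_add]
      have h1 : Y.mkQ m = z - Y.mkQ x := hm1
      rw [h1]
      abel

end bumps

end Pool.Agent.Y436.TS
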